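import Pool.Agent.H34.TAM.Stmts2

/-!
Board aut (MP_286349_an), row GEN: the answer depends only on the algebra generated.
-/

set_option autoImplicit false

open Filter
open scoped Topology TensorProduct

namespace Pool.AUT

open Pool.CGR Pool.CGS Pool.TAM MulOpposite

/-- Row `GEN`. -/
theorem gen_thm (hAUT : AUTStmt) : GENStmt := by
  intro hN m A _ τ hτ x y hx hy hxy hYes
  have hF : ∀ j, ∃ q : Fr m, FreeAlgebra.lift ℂ x q = y j := by
    intro j
    have h : y j ∈ Algebra.adjoin ℂ (Set.range x) := by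
      rw [hxy]
      exact Algebra.subset_adjoin ⟨j, rfl⟩
    rw [Algebra.adjoin_range_eq_range_freeAlgebra_lift] at h
    exact h
  have hG : ∀ j, ∃ q : Fr m, FreeAlgebra.lift ℂ y q = x j := by
    intro j
    have h : x j ∈ Algebra.adjoin ℂ (Set.range y) := by
      rw [← hxy]
      exact Algebra.subset_adjoin ⟨j, rfl⟩
    rw [Algebra.adjoin_range_eq_range_freeAlgebra_lift] at h
    exact h
  choose F hF' using hF
  choose G hG' using hG
  have e1 : ∀ a, FreeAlgebra.lift ℂ x (FreeAlgebra.lift ℂ F a) = FreeAlgebra.lift ℂ y a := by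
    intro a
    have h : (FreeAlgebra.lift ℂ x).comp (FreeAlgebra.lift ℂ F) = FreeAlgebra.lift ℂ y := by
      refine FreeAlgebra.hom_ext (funext fun j => ?_)
      simp only [Function.comp_apply, AlgHom.comp_apply, FreeAlgebra.lift_ι_apply]
      exact hF' j
    rw [← h]
    rfl
  have e2 : ∀ a, FreeAlgebra.lift ℂ y (FreeAlgebra.lift ℂ G a) = FreeAlgebra.lift ℂ x a := by
    intro a
    have h : (FreeAlgebra.lift ℂ y).comp (FreeAlgebra.lift ℂ G) = FreeAlgebra.lift ℂ x := by
      refine FreeAlgebra.hom_ext (funext fun j => ?_)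
      simp only [Function.comp_apply, AlgHom.comp_apply, FreeAlgebra.lift_ι_apply]
      exact hG' j
    rw [← h]
    rfl
  have h := hAUT hN m A τ hτ x (FreeAlgebra.lift ℂ F) (FreeAlgebra.lift ℂ G)
    (fun a => hx (by rw [e1, e2])) (fun a => hy (by rw [e2, e1])) hYes
  have hy' : (fun j => FreeAlgebra.lift ℂ x (FreeAlgebra.lift ℂ F (io j))) = y := by
    funext j
    rw [FreeAlgebra.lift_ι_apply]
    exact hF' j
  rw [hy'] at h
  exact h

end Pool.AUT
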